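import Pool.Agent.Helper20_LB.Final

/-!
# The number of composite blocks
-/

set_option autoImplicit false

namespace Pool.Agent.Helper20_LB

open Finset

theorem composite_blocks {n : ℕ} (B : Finset ℕ) (h2 : 2 ≤ B.card)
    (hB : ∀ b ∈ B, 1 < b ∧ b.totient ∣ b - 1)
    (hcop : ∀ b ∈ B, ∀ c ∈ B, b ≠ c → Nat.Coprime b c) (hn : n = ∏ b ∈ B, b)
    (hL : n.totient ∣ n - 1) :
    2 ^ (B.filter fun b => ¬ b.Prime).card < (n - 1) / n.totient := by
  refine lt_of_le_of_lt ?_ (blocks B h2 hB hcop hn hL).2.2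
  have h1 : ∏ b ∈ B, (if b.Prime then 1 else 2) ≤ ∏ b ∈ B, (b - 1) / b.totient := by
    refine Finset.prod_le_prod (fun _ _ => Nat.zero_le _) fun b hb => ?_
    rcases quot (hB b hb).1 (hB b hb).2 with h | h
    · rw [if_pos h.1]
      exact h.2.ge
    · by_cases hp : b.Prime
      · rw [if_pos hp]
        omega
      · rw [if_neg hp]
        exact h.1
  rwa [Finset.prod_ite, prod_const_one, one_mul, prod_const] at h1

end Pool.Agent.Helper20_LB
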