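import Mathlib

/-!
# No solution of `φ(n) ∣ n - 1` is a product of two coprime smaller ones or primes
-/

set_option autoImplicit false

namespace Pool.Agent.Helper20_LB

open Finset

theorem cube_one {q : ℕ} (hq : 5 ≤ q) : 64 * q ^ 2 ≤ 25 * (q - 1) ^ 3 := by
  obtain ⟨x, rfl⟩ := Nat.exists_eq_add_of_le hq
  rw [show 5 + x - 1 = x + 4 by omega]
  nlinarith [Nat.zero_le (x ^ 3), Nat.zero_le (x ^ 2)]

theorem cube_prod (T : Finset ℕ) (hT : ∀ p ∈ T, 5 ≤ p) :
    (∏ p ∈ T, p) ^ 2 ≤ (∏ p ∈ T, (p - 1)) ^ 3 := by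
  rw [← prod_pow, ← prod_pow]
  exact Finset.prod_le_prod (fun _ _ => Nat.zero_le _) fun p hp => by
    have := cube_one (hT p hp)
    omega

theorem cube_prod_two (T : Finset ℕ) (hT : ∀ p ∈ T, 5 ≤ p) (hne : T.Nonempty) :
    64 * (∏ p ∈ T, p) ^ 2 ≤ 25 * (∏ p ∈ T, (p - 1)) ^ 3 := by
  obtain ⟨c, hc⟩ := hne
  rw [← mul_prod_erase T _ hc, ← mul_prod_erase T _ hc, mul_pow, mul_pow]
  have h1 := cube_prod (T.erase c) fun p hp => hT p (mem_of_mem_erase hp)
  have h2 := Nat.mul_le_mul (cube_one (hT c hc)) h1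
  nlinarith

theorem totient_sqf {b : ℕ} (hb : b ≠ 0) (hs : Squarefree b) :
    b.totient = ∏ p ∈ b.primeFactors, (p - 1) := by
  have h1 := Nat.totient_mul_prod_primeFactors b
  rw [Nat.prod_primeFactors_of_squarefree hs, mul_comm] at h1
  exact Nat.eq_of_mul_eq_mul_left (Nat.pos_of_ne_zero hb) h1

theorem sqf {b : ℕ} (hb : 1 < b) (h : b.totient ∣ b - 1) : Squarefree b := by
  rw [Nat.squarefree_iff_prime_squarefree]
  intro p hp hpp
  have h1 : p ∣ b.totient := by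
    have h2 : (p * p).totient ∣ b.totient := Nat.totient_dvd_of_dvd hpp
    rw [Nat.totient_mul_of_prime_of_dvd hp (dvd_refl p)] at h2
    exact (dvd_mul_right _ _).trans h2
  have h3 : p ∣ b - 1 := h1.trans h
  have h4 : p ∣ b := (dvd_mul_right p p).trans hpp
  have h5 : p ∣ b - (b - 1) := Nat.dvd_sub h4 h3
  rw [show b - (b - 1) = 1 by omega] at h5
  exact hp.one_lt.ne' (Nat.dvd_one.1 h5)

theorem odd_of {b : ℕ} (hb : 2 < b) (h : b.totient ∣ b - 1) : ¬ 2 ∣ b := by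
  intro h2
  have h1 : 2 ∣ b.totient := (Nat.totient_even hb).two_dvd
  have h3 := h1.trans h
  omega

theorem big {b : ℕ} (hb : 1 < b) (hp : ¬ b.Prime) (h : b.totient ∣ b - 1) :
    2 * b ^ 2 ≤ b.totient ^ 3 := by
  have hb2 : 2 < b := by
    rcases Nat.lt_or_ge 2 b with h0 | h0
    · exact h0
    · exact absurd (show b.Prime by rw [show b = 2 by omega]; exact Nat.prime_two) hp
  have hs := sqf hb h
  have ho := odd_of hb2 h
  have hT : ∀ p ∈ b.primeFactors, p ≠ 3 → 5 ≤ p := by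
    intro p hpm h3
    have h4 := Nat.prime_of_mem_primeFactors hpm
    have h5 := Nat.dvd_of_mem_primeFactors hpm
    have h6 : p ≠ 2 := fun h7 => ho (h7 ▸ h5)
    have h7 : p ≠ 4 := by
      rintro rfl
      revert h4
      norm_num
    have := h4.two_le
    omega
  have hbp := Nat.prod_primeFactors_of_squarefree hs
  have hf := totient_sqf (by omega) hs
  by_cases h3 : 3 ∈ b.primeFactors
  · rw [← mul_prod_erase _ _ h3] at hbp hf
    have h5 : ∀ p ∈ b.primeFactors.erase 3, 5 ≤ p := fun p hp =>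
      hT p (mem_of_mem_erase hp) (ne_of_mem_erase hp)
    have hne : (b.primeFactors.erase 3).Nonempty := by
      rw [nonempty_iff_ne_empty]
      intro h0
      rw [h0, prod_empty] at hbp
      exact hp (by rw [← hbp]; norm_num)
    have h6 := cube_prod_two _ h5 hne
    have e1 : b ^ 2 = 9 * (∏ p ∈ b.primeFactors.erase 3, p) ^ 2 := by
      rw [show (9 : ℕ) = 3 ^ 2 by norm_num, ← mul_pow, hbp]
    have e2 : b.totient ^ 3 = 8 * (∏ p ∈ b.primeFactors.erase 3, (p - 1)) ^ 3 := by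
      rw [hf, mul_pow]
      norm_num
    omega
  · have h5 : ∀ p ∈ b.primeFactors, 5 ≤ p := fun p hp => hT p hp fun h0 => h3 (h0 ▸ hp)
    have hne : b.primeFactors.Nonempty := Nat.nonempty_primeFactors.2 hb
    have h6 := cube_prod_two _ h5 hne
    rw [← hf, hbp] at h6
    omega

theorem quot {b : ℕ} (hb : 1 < b) (h : b.totient ∣ b - 1) :
    (b.Prime ∧ (b - 1) / b.totient = 1) ∨
      (2 ≤ (b - 1) / b.totient ∧ 2 * ((b - 1) / b.totient) ^ 2 < b.totient) := by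
  obtain ⟨a, ha⟩ := h
  have hf : 0 < b.totient := Nat.totient_pos.2 (by omega)
  have h0 : (b - 1) / b.totient = a := by
    rw [ha]
    exact Nat.mul_div_cancel_left a hf
  rw [h0]
  by_cases hp : b.Prime
  · left
    refine ⟨hp, ?_⟩
    rw [Nat.totient_prime hp] at ha hf
    exact (Nat.eq_of_mul_eq_mul_left hf (by rw [mul_one]; exact ha)).symm
  · right
    have h1 := big hb hp ⟨a, ha⟩
    constructor
    · by_contra hcon
      have h2 : a = 0 ∨ a = 1 := by omega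
      rcases h2 with rfl | rfl
      · omega
      · rw [mul_one] at ha
        exact hp (Nat.totient_eq_iff_prime (by omega) |>.1 ha.symm)
    · have h3 : b.totient * a < b := by omega
      have h4 : (b.totient * a) ^ 2 < b ^ 2 := Nat.pow_lt_pow_left h3 (by norm_num)
      have h5 : b.totient ^ 2 * (2 * a ^ 2) < b.totient ^ 2 * b.totient := by nlinarith
      exact lt_of_mul_lt_mul_left h5 (Nat.zero_le _)

theorem core {a₁ a₂ f₁ f₂ k : ℕ} (hf₁ : 0 < f₁) (h12 : f₁ ≤ f₂)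
    (h : k * (f₁ * f₂) + 1 = (a₁ * f₁ + 1) * (a₂ * f₂ + 1))
    (h₁ : a₁ = 1 ∨ (2 ≤ a₁ ∧ 2 * a₁ ^ 2 < f₁)) (h₂ : a₂ = 1 ∨ (2 ≤ a₂ ∧ 2 * a₂ ^ 2 < f₂)) :
    a₁ = 1 ∧ a₂ = 1 ∧ f₁ = f₂ := by
  have hf₂ : 0 < f₂ := by omega
  have ha₁ : 1 ≤ a₁ := by omega
  have h3 : k * (f₁ * f₂) = a₁ * a₂ * (f₁ * f₂) + a₁ * f₁ + a₂ * f₂ := by nlinarith
  have h4 : f₂ ∣ a₁ * f₁ := by
    have h5 : f₂ ∣ a₁ * a₂ * (f₁ * f₂) + a₁ * f₁ + a₂ * f₂ := by
      rw [← h3]
      exact ⟨k * f₁, by ring⟩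
    have h6 : f₂ ∣ a₁ * a₂ * (f₁ * f₂) + a₂ * f₂ := ⟨a₁ * a₂ * f₁ + a₂, by ring⟩
    rw [show a₁ * a₂ * (f₁ * f₂) + a₁ * f₁ + a₂ * f₂ =
      (a₁ * a₂ * (f₁ * f₂) + a₂ * f₂) + a₁ * f₁ by ring] at h5
    exact (Nat.dvd_add_right h6).1 h5
  have h5 : f₂ ≤ a₁ * f₁ := Nat.le_of_dvd (Nat.mul_pos ha₁ hf₁) h4
  have h6 : a₁ * a₂ < k := by
    by_contra hcon
    have h7 := Nat.mul_le_mul_right (f₁ * f₂) (not_lt.1 hcon)
    have h8 : 0 < a₁ * f₁ := Nat.mul_pos ha₁ hf₁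
    omega
  have h7 : f₁ ≤ a₁ + a₂ := by
    have h8 := Nat.mul_le_mul_right (f₁ * f₂) h6
    have h9 : a₁ * f₁ ≤ a₁ * f₂ := Nat.mul_le_mul_left _ h12
    have h10 : f₂ * f₁ ≤ f₂ * (a₁ + a₂) := by nlinarith
    exact Nat.le_of_mul_le_mul_left h10 hf₂
  rcases h₁ with rfl | ⟨h1a, h1b⟩
  · have h8 : f₁ = f₂ := by omega
    rcases h₂ with rfl | ⟨h2a, h2b⟩
    · exact ⟨rfl, rfl, h8⟩
    · exfalso
      nlinarith
  · exfalso
    rcases h₂ with rfl | ⟨h2a, h2b⟩
    · nlinarith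
    · have h8 : 3 * a₁ ≤ a₂ := by nlinarith
      have h9 : f₂ ≤ a₁ * (a₁ + a₂) := h5.trans (Nat.mul_le_mul_left _ h7)
      nlinarith

/-- a product of two coprime numbers `> 1`, each a prime or a solution, is not a solution -/
theorem two {b c : ℕ} (hb : 1 < b) (hc : 1 < c) (hcop : Nat.Coprime b c)
    (h1 : b.totient ∣ b - 1) (h2 : c.totient ∣ c - 1) : ¬ (b * c).totient ∣ b * c - 1 := by
  intro h
  have q1 := quot hb h1
  have q2 := quot hc h2
  have e1 := Nat.div_mul_cancel h1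
  have e2 := Nat.div_mul_cancel h2
  have hf1 : 0 < b.totient := Nat.totient_pos.2 (by omega)
  have hf2 : 0 < c.totient := Nat.totient_pos.2 (by omega)
  rw [Nat.totient_mul hcop] at h
  have e := Nat.div_mul_cancel h
  have hbc : 0 < b * c := Nat.mul_pos (by omega) (by omega)
  set a₁ := (b - 1) / b.totient
  set a₂ := (c - 1) / c.totient
  set k := (b * c - 1) / (b.totient * c.totient)
  have hb' : b = a₁ * b.totient + 1 := by omega
  have hc' : c = a₂ * c.totient + 1 := by omega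
  have hm : k * (b.totient * c.totient) + 1 = (a₁ * b.totient + 1) * (a₂ * c.totient + 1) := by
    rw [← hb', ← hc']
    omega
  have hne : b ≠ c := by
    rintro rfl
    exact hb.ne' (Nat.coprime_self b |>.1 hcop)
  have q1' : a₁ = 1 ∨ (2 ≤ a₁ ∧ 2 * a₁ ^ 2 < b.totient) := q1.imp (fun h => h.2) id
  have q2' : a₂ = 1 ∨ (2 ≤ a₂ ∧ 2 * a₂ ^ 2 < c.totient) := q2.imp (fun h => h.2) id
  rcases le_total b.totient c.totient with hle | hle
  · obtain ⟨x1, x2, x3⟩ := core hf1 hle hm q1' q2'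
    rw [x1] at hb'
    rw [x2] at hc'
    omega
  · have hm' : k * (c.totient * b.totient) + 1 = (a₂ * c.totient + 1) * (a₁ * b.totient + 1) := by
      rw [mul_comm c.totient b.totient, hm]
      ring
    obtain ⟨x1, x2, x3⟩ := core hf2 hle hm' q2' q1'
    rw [x1] at hc'
    rw [x2] at hb'
    omega

end Pool.Agent.Helper20_LB
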