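import Pool.Agent.Helper20_LB.Main
import Pool.Agent.Helper20_LB.Two

/-!
# The statements over finite sets of blocks
-/

set_option autoImplicit false

namespace Pool.Agent.Helper20_LB

open Finset

theorem blocks {n : ℕ} (B : Finset ℕ) (h2 : 2 ≤ B.card)
    (hB : ∀ b ∈ B, 1 < b ∧ b.totient ∣ b - 1)
    (hcop : ∀ b ∈ B, ∀ c ∈ B, b ≠ c → Nat.Coprime b c) (hn : n = ∏ b ∈ B, b)
    (hL : n.totient ∣ n - 1) :
    3 ≤ B.card ∧
    2 * B.card * n ≤ (2 * B.card * ∏ b ∈ B, (b - 1) / b.totient) ^ (2 ^ B.card) ∧
    ∏ b ∈ B, (b - 1) / b.totient < (n - 1) / n.totient := by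
  have hprod : ∀ g : ℕ → ℕ, ∏ i : Fin B.card, g (B.equivFin.symm i : ℕ) = ∏ b ∈ B, g b := by
    intro g
    rw [Equiv.prod_comp B.equivFin.symm (fun x : B => g x), Finset.prod_coe_sort]
  have h := main (n := n) h2 (fun i => (B.equivFin.symm i : ℕ))
    (fun i => (hB _ (B.equivFin.symm i).2).1)
    (fun i j hij => hcop _ (B.equivFin.symm i).2 _ (B.equivFin.symm j).2 fun h0 =>
      hij (B.equivFin.symm.injective (Subtype.ext h0)))
    (fun i => (hB _ (B.equivFin.symm i).2).2)
    (by rw [hn]; exact (hprod fun b => b).symm) hL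
  rw [hprod fun b => (b - 1) / b.totient] at h
  refine ⟨?_, h⟩
  by_contra hcon
  have h3 : B.card = 2 := by omega
  obtain ⟨x, y, hxy, rfl⟩ := card_eq_two.1 h3
  rw [prod_pair hxy] at hn
  have hx := hB x (by simp)
  have hy := hB y (by simp)
  rw [hn] at hL
  exact two hx.1 hy.1 (hcop x (by simp) y (by simp) hxy) hx.2 hy.2 hL

theorem multiples {n d : ℕ} (h1 : 1 < d) (hdn : d < n) (hd : d ∣ n) (hLd : d.totient ∣ d - 1)
    (hLn : n.totient ∣ n - 1) :
    2 ≤ (n / d).primeFactors.card ∧ ¬ (n / d).totient ∣ n / d - 1 ∧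
    2 * ((n / d).primeFactors.card + 1) * n ≤
      (2 * ((n / d).primeFactors.card + 1) * ((d - 1) / d.totient)) ^
        (2 ^ ((n / d).primeFactors.card + 1)) := by
  obtain ⟨m, rfl⟩ := hd
  have hm : 1 < m := by
    by_contra hcon
    have h2 : m = 0 ∨ m = 1 := by omega
    rcases h2 with rfl | rfl <;> omega
  rw [Nat.mul_div_cancel_left m (by omega)]
  have hs := sqf (by omega) hLn
  have hcop : Nat.Coprime d m := Nat.coprime_of_squarefree_mul hs
  have hsm : Squarefree m := hs.of_mul_right
  have hmp := Nat.prod_primeFactors_of_squarefree hsm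
  have hdm : d ∉ m.primeFactors := by
    intro h2
    have h3 := Nat.dvd_of_mem_primeFactors h2
    have h4 := Nat.Coprime.eq_one_of_dvd hcop h3
    omega
  have hne : m.primeFactors.Nonempty := Nat.nonempty_primeFactors.2 hm
  have hcard : (insert d m.primeFactors).card = m.primeFactors.card + 1 :=
    card_insert_of_notMem hdm
  have hq : ∏ p ∈ m.primeFactors, (p - 1) / p.totient = 1 := by
    apply Finset.prod_eq_one
    intro p hp
    have h2 := Nat.prime_of_mem_primeFactors hp
    rw [Nat.totient_prime h2]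
    exact Nat.div_self (by have := h2.two_le; omega)
  have h := blocks (n := d * m) (insert d m.primeFactors)
    (by rw [hcard]; have := card_pos.2 hne; omega)
    (by
      intro b hb
      rcases mem_insert.1 hb with rfl | hb
      · exact ⟨h1, hLd⟩
      · have h2 := Nat.prime_of_mem_primeFactors hb
        rw [Nat.totient_prime h2]
        exact ⟨h2.one_lt, dvd_refl _⟩)
    (by
      intro b hb c hc hbc
      rcases mem_insert.1 hb with rfl | hb'
      · rcases mem_insert.1 hc with rfl | hc'
        · exact absurd rfl hbc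
        · exact hcop.coprime_dvd_right (Nat.dvd_of_mem_primeFactors hc')
      · rcases mem_insert.1 hc with rfl | hc'
        · exact (hcop.coprime_dvd_right (Nat.dvd_of_mem_primeFactors hb')).symm
        · exact (Nat.coprime_primes (Nat.prime_of_mem_primeFactors hb')
            (Nat.prime_of_mem_primeFactors hc')).2 hbc)
    (by rw [prod_insert hdm, hmp]) hLn
  rw [hcard, prod_insert hdm, hq, mul_one] at h
  refine ⟨by omega, fun h2 => two h1 hm hcop hLd h2 hLn, h.2.1⟩

end Pool.Agent.Helper20_LB
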