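import Mathlib

/-!
# Solutions of `φ(n) ∣ n - 1` which are products of few smaller ones and primes
-/

set_option autoImplicit false

namespace Pool.Agent.Helper20_LB

open Finset

theorem prod_ge {ι : Type} [DecidableEq ι] (x : ι → ℕ) (g : ℕ) (T : Finset ι)
    (h : ∀ i ∈ T, g ≤ x i + 1) :
    (∏ i ∈ T, (x i + 1)) * g ≤ (∏ i ∈ T, x i) * g + T.card * ∏ i ∈ T, (x i + 1) := by
  induction T using Finset.induction_on with
  | empty => simp
  | insert c T hc ih =>
    rw [prod_insert hc, prod_insert hc, card_insert_of_notMem hc]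
    have h1 := ih fun i hi => h i (mem_insert_of_mem hi)
    have h2 := h c (mem_insert_self c T)
    set Q' := ∏ i ∈ T, (x i + 1)
    set Q := ∏ i ∈ T, x i
    nlinarith [Nat.mul_le_mul_left (x c) h1, Nat.mul_le_mul_left Q' h2]

theorem prod_le {ι : Type} [DecidableEq ι] (x : ι → ℕ) (T : Finset ι) :
    ∏ i ∈ T, x i ≤ ∏ i ∈ T, (x i + 1) :=
  Finset.prod_le_prod (fun _ _ => Nat.zero_le _) fun _ _ => Nat.le_succ _

theorem prod_one {ι : Type} [DecidableEq ι] (x : ι → ℕ) (T : Finset ι) (hT : T.Nonempty) :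
    ∏ i ∈ T, x i + 1 ≤ ∏ i ∈ T, (x i + 1) := by
  obtain ⟨c, hc⟩ := hT
  rw [← mul_prod_erase T _ hc, ← mul_prod_erase T _ hc]
  have h1 := prod_le x (T.erase c)
  have h2 : 1 ≤ ∏ i ∈ T.erase c, (x i + 1) := Finset.prod_pos fun i _ => Nat.succ_pos _
  nlinarith [Nat.mul_le_mul_left (x c) h1]

theorem prod_two {ι : Type} [DecidableEq ι] (x : ι → ℕ) (T : Finset ι) (hT : 2 ≤ T.card)
    (hx : ∀ i ∈ T, 1 ≤ x i) : ∏ i ∈ T, x i + 2 ≤ ∏ i ∈ T, (x i + 1) := by
  obtain ⟨c, hc⟩ : T.Nonempty := card_pos.1 (by omega)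
  have h0 : (T.erase c).Nonempty := by
    rw [← card_pos, card_erase_of_mem hc]
    omega
  rw [← mul_prod_erase T _ hc, ← mul_prod_erase T _ hc]
  have h1 := prod_one x (T.erase c) h0
  have h2 : 0 < ∏ i ∈ T.erase c, x i :=
    Finset.prod_pos fun i hi => Nat.lt_of_lt_of_le Nat.zero_lt_one (hx i (mem_of_mem_erase hi))
  have h3 := hx c hc
  nlinarith [Nat.mul_le_mul_left (x c) h1]

theorem totient_prod {ι : Type} [DecidableEq ι] (b : ι → ℕ)
    (hb : Pairwise fun i j => Nat.Coprime (b i) (b j)) (T : Finset ι) :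
    (∏ i ∈ T, b i).totient = ∏ i ∈ T, (b i).totient := by
  induction T using Finset.induction_on with
  | empty => simp
  | insert c T hc ih =>
    rw [prod_insert hc, prod_insert hc, Nat.totient_mul, ih]
    exact Nat.Coprime.prod_right fun i hi => hb fun h => hc (h ▸ hi)

section

variable {s : ℕ} {a f : Fin s → ℕ} {k : ℕ}

/-- `P T * A T`: the product of the blocks outside of `T` and of the quotients inside of `T` -/
def M (a f : Fin s → ℕ) (T : Finset (Fin s)) : ℕ := (∏ i ∈ Tᶜ, (a i * f i + 1)) * ∏ i ∈ T, a i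

theorem key (hs : 2 ≤ s) (ha : ∀ i, 1 ≤ a i) (hf : ∀ i, 1 ≤ f i)
    (h : k * ∏ i, f i + 1 = ∏ i, (a i * f i + 1)) (T : Finset (Fin s)) (hT : T.Nonempty) :
    (∏ i ∈ Tᶜ, (a i * f i + 1)) * (∏ i ∈ T, a i) + 1 ≤ k * ∏ i ∈ Tᶜ, f i := by
  have hx : ∀ i, 1 ≤ a i * f i := fun i => Nat.mul_pos (ha i) (hf i)
  have h1 : (∏ i ∈ Tᶜ, (a i * f i + 1)) * (∏ i ∈ T, a i * f i) + 2 ≤
      (∏ i ∈ Tᶜ, (a i * f i + 1)) * ∏ i ∈ T, (a i * f i + 1) := by
    have hP : 1 ≤ ∏ i ∈ Tᶜ, (a i * f i + 1) := Finset.prod_pos fun i _ => Nat.succ_pos _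
    by_cases hU : T = univ
    · have h2 := prod_two (fun i => a i * f i) T (by rw [hU, card_univ, Fintype.card_fin]; exact hs)
        fun i _ => hx i
      have h3 := Nat.mul_le_mul_left (∏ i ∈ Tᶜ, (a i * f i + 1)) h2
      nlinarith
    · have h2 := prod_one (fun i => a i * f i) T hT
      have h4 : 2 ≤ ∏ i ∈ Tᶜ, (a i * f i + 1) := by
        obtain ⟨c, hc⟩ : (Tᶜ).Nonempty := by
          rw [nonempty_iff_ne_empty]
          intro h5
          exact hU (compl_eq_empty_iff T |>.1 h5)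
        rw [← mul_prod_erase _ _ hc]
        have h6 : 1 ≤ ∏ i ∈ Tᶜ.erase c, (a i * f i + 1) := Finset.prod_pos fun i _ => Nat.succ_pos _
        have := hx c
        nlinarith
      have h3 := Nat.mul_le_mul_left (∏ i ∈ Tᶜ, (a i * f i + 1)) h2
      nlinarith
  rw [← prod_compl_mul_prod T (fun i => a i * f i + 1), ← prod_compl_mul_prod T f] at h
  rw [prod_mul_distrib] at h1
  have hF : 0 < ∏ i ∈ T, f i :=
    Finset.prod_pos fun i _ => Nat.lt_of_lt_of_le Nat.zero_lt_one (hf i)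
  by_contra hcon
  push Not at hcon
  have h5 : k * ∏ i ∈ Tᶜ, f i ≤ (∏ i ∈ Tᶜ, (a i * f i + 1)) * ∏ i ∈ T, a i := by omega
  have h6 := Nat.mul_le_mul_right (∏ i ∈ T, f i) h5
  have h7 : k * ((∏ i ∈ Tᶜ, f i) * ∏ i ∈ T, f i) = k * (∏ i ∈ Tᶜ, f i) * ∏ i ∈ T, f i := by ring
  have h8 : (∏ i ∈ Tᶜ, (a i * f i + 1)) * ((∏ i ∈ T, a i) * ∏ i ∈ T, f i) =
      (∏ i ∈ Tᶜ, (a i * f i + 1)) * (∏ i ∈ T, a i) * ∏ i ∈ T, f i := by ring
  omega

theorem small (hs : 2 ≤ s) (ha : ∀ i, 1 ≤ a i) (hf : ∀ i, 1 ≤ f i)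
    (h : k * ∏ i, f i + 1 = ∏ i, (a i * f i + 1)) (T : Finset (Fin s)) (hT : T.Nonempty)
    (c : Fin s) (hmin : ∀ i ∈ T, f c ≤ f i) : f c + 1 < T.card * (M a f T + 1) := by
  by_contra hcon
  push Not at hcon
  have h1 := prod_ge (fun j => a j * f j) (T.card * (M a f T + 1)) T fun j hj => by
    have := Nat.mul_le_mul (ha j) (hmin j hj)
    omega
  have hr : 0 < T.card := card_pos.2 hT
  have h2 := key hs ha hf h T hT
  rw [← prod_compl_mul_prod T (fun i => a i * f i + 1), ← prod_compl_mul_prod T f] at h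
  rw [show (∏ i ∈ T, a i * f i) = (∏ i ∈ T, a i) * ∏ i ∈ T, f i from prod_mul_distrib] at h1
  have hA : 0 < ∏ i ∈ T, a i := Finset.prod_pos fun i _ => ha i
  unfold M at h1 hcon
  set P := ∏ i ∈ Tᶜ, (a i * f i + 1)
  set A := ∏ i ∈ T, a i
  set F := ∏ i ∈ T, f i
  set G := ∏ i ∈ Tᶜ, f i
  set X := ∏ i ∈ T, (a i * f i + 1)
  -- X * M ≤ A F (M + 1)
  have h3 : X * (P * A) ≤ A * F * (P * A + 1) := by
    have h4 : T.card * (X * (P * A)) ≤ T.card * (A * F * (P * A + 1)) := by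
      nlinarith
    exact Nat.le_of_mul_le_mul_left h4 hr
  have h5 : P * X ≤ F * (P * A + 1) := by
    have h6 : A * (P * X) ≤ A * (F * (P * A + 1)) := by nlinarith
    exact Nat.le_of_mul_le_mul_left h6 hA
  have h7 := Nat.mul_le_mul_right F h2
  have h8 : k * (G * F) = k * G * F := by ring
  nlinarith

theorem M_erase (T : Finset (Fin s)) (ha : ∀ i, 1 ≤ a i) (c : Fin s) (hc : c ∈ T) :
    M a f (T.erase c) ≤ M a f T * (f c + 1) := by
  unfold M
  rw [compl_erase, prod_insert (by simp [hc]), ← mul_prod_erase T a hc]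
  have := ha c
  have h1 : (∏ i ∈ Tᶜ, (a i * f i + 1)) * (∏ i ∈ T.erase c, a i) ≤
      a c * ((∏ i ∈ Tᶜ, (a i * f i + 1)) * (∏ i ∈ T.erase c, a i)) := Nat.le_mul_of_pos_left _ this
  nlinarith

theorem M_pos (ha : ∀ i, 1 ≤ a i) (T : Finset (Fin s)) : 1 ≤ M a f T :=
  Nat.mul_pos (Finset.prod_pos fun _ _ => Nat.succ_pos _) (Finset.prod_pos fun i _ => ha i)

theorem induct (hs : 2 ≤ s) (ha : ∀ i, 1 ≤ a i) (hf : ∀ i, 1 ≤ f i)
    (h : k * ∏ i, f i + 1 = ∏ i, (a i * f i + 1)) :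
    ∀ (r : ℕ) (T : Finset (Fin s)), T.card = r →
      2 * s * ∏ i, (a i * f i + 1) ≤ (2 * s * M a f T) ^ (2 ^ r) := by
  intro r
  induction r with
  | zero =>
    intro T hT
    rw [card_eq_zero] at hT
    subst hT
    simp [M]
  | succ r ih =>
    intro T hT
    have hne : T.Nonempty := card_pos.1 (by omega)
    obtain ⟨c, hc, hmin⟩ := exists_min_image T f hne
    have h1 := ih (T.erase c) (by rw [card_erase_of_mem hc]; omega)
    have h2 := small hs ha hf h T hne c hmin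
    have h3 := M_erase (f := f) T ha c hc
    have h4 := M_pos (f := f) ha T
    have h5 : T.card ≤ s := by
      have := card_le_univ T
      rwa [Fintype.card_fin] at this
    have h6 : f c + 1 ≤ 2 * s * M a f T := by
      have h7 := Nat.mul_le_mul_right (M a f T + 1) h5
      nlinarith
    have h8 : 2 * s * M a f (T.erase c) ≤ (2 * s * M a f T) ^ 2 := by
      have h9 := Nat.mul_le_mul_left (M a f T) h6
      nlinarith
    calc 2 * s * ∏ i, (a i * f i + 1) ≤ (2 * s * M a f (T.erase c)) ^ (2 ^ r) := h1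
      _ ≤ ((2 * s * M a f T) ^ 2) ^ (2 ^ r) := Nat.pow_le_pow_left h8 _
      _ = (2 * s * M a f T) ^ (2 ^ (r + 1)) := by rw [← pow_mul]; ring_nf

end

theorem main {n s : ℕ} (hs : 2 ≤ s) (b : Fin s → ℕ) (hb : ∀ i, 1 < b i)
    (hcop : Pairwise fun i j => Nat.Coprime (b i) (b j)) (hblock : ∀ i, (b i).totient ∣ b i - 1)
    (hn : n = ∏ i, b i) (hL : n.totient ∣ n - 1) :
    2 * s * n ≤ (2 * s * ∏ i, (b i - 1) / (b i).totient) ^ (2 ^ s) ∧
      ∏ i, (b i - 1) / (b i).totient < (n - 1) / n.totient := by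
  have hf : ∀ i, 1 ≤ (b i).totient := fun i => Nat.totient_pos.2 (by have := hb i; omega)
  have hab : ∀ i, (b i - 1) / (b i).totient * (b i).totient + 1 = b i := fun i => by
    rw [Nat.div_mul_cancel (hblock i)]
    have := hb i
    omega
  have ha : ∀ i, 1 ≤ (b i - 1) / (b i).totient := fun i => by
    by_contra hcon
    have h0 : (b i - 1) / (b i).totient = 0 := Nat.lt_one_iff.1 (not_le.1 hcon)
    have h1 := hab i
    rw [h0, zero_mul] at h1
    have := hb i
    omega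
  have hn1 : 0 < n := by
    rw [hn]
    exact Finset.prod_pos fun i _ => lt_trans Nat.zero_lt_one (hb i)
  have h : (n - 1) / n.totient * ∏ i, (b i).totient + 1 =
      ∏ i, ((b i - 1) / (b i).totient * (b i).totient + 1) := by
    rw [← totient_prod b hcop univ, ← hn, Nat.div_mul_cancel hL]
    simp only [hab]
    omega
  constructor
  · have h1 := induct hs ha hf h s univ (by simp)
    simp only [hab, ← hn] at h1
    simpa [M] using h1
  · have h2 := key hs ha hf h univ ⟨⟨0, by omega⟩, mem_univ _⟩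
    simp only [compl_univ, prod_empty, one_mul, mul_one] at h2
    omega

end Pool.Agent.Helper20_LB
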