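import Pool.Agent.Helper20_LB.Main
import Pool.Agent.Helper20_LB.Two

/-!
# The unitary totient: `φ*(n) ∣ n - 1`
-/

set_option autoImplicit false

namespace Pool.Agent.Helper20_LB.Unitary

open Finset

/-- the unitary totient: the product of `p ^ a - 1` over the exact prime power divisors -/
def U (n : ℕ) : ℕ := ∏ p ∈ n.primeFactors, (p ^ n.factorization p - 1)

theorem U_mul {b c : ℕ} (hb : b ≠ 0) (hc : c ≠ 0) (h : Nat.Coprime b c) : U (b * c) = U b * U c := by
  have h1 : ∀ n : ℕ, U n = n.factorization.prod fun p e => p ^ e - 1 := fun n => rfl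
  rw [h1, h1, h1, Nat.factorization_mul hb hc]
  exact Finsupp.prod_add_index_of_disjoint h.disjoint_primeFactors _

theorem U_prod {ι : Type} [DecidableEq ι] (b : ι → ℕ) (T : Finset ι) (h0 : ∀ i ∈ T, b i ≠ 0)
    (hb : ∀ i ∈ T, ∀ j ∈ T, i ≠ j → Nat.Coprime (b i) (b j)) :
    U (∏ i ∈ T, b i) = ∏ i ∈ T, U (b i) := by
  induction T using Finset.induction_on with
  | empty => simp [U]
  | insert c T hc ih =>
    rw [prod_insert hc, prod_insert hc, U_mul, ih]
    · exact fun i hi => h0 i (mem_insert_of_mem hi)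
    · exact fun i hi j hj hij => hb i (mem_insert_of_mem hi) j (mem_insert_of_mem hj) hij
    · exact h0 c (mem_insert_self _ _)
    · exact Finset.prod_ne_zero_iff.2 fun i hi => h0 i (mem_insert_of_mem hi)
    · exact Nat.Coprime.prod_right fun i hi =>
        hb c (mem_insert_self _ _) i (mem_insert_of_mem hi) fun h => hc (h ▸ hi)

theorem one_lt_comp {b p : ℕ} (hp : p ∈ b.primeFactors) : 1 < p ^ b.factorization p :=
  Nat.one_lt_pow (by
    have := (Nat.prime_of_mem_primeFactors hp).factorization_pos_of_dvd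
      (Nat.mem_primeFactors.1 hp).2.2 (Nat.dvd_of_mem_primeFactors hp)
    omega) (Nat.prime_of_mem_primeFactors hp).one_lt

theorem U_pos (b : ℕ) : 0 < U b := Finset.prod_pos fun _ hp => by
  have := one_lt_comp hp
  omega

theorem main' {n s : ℕ} (hs : 2 ≤ s) (b f : Fin s → ℕ) (hb : ∀ i, 1 < b i) (hf : ∀ i, 1 ≤ f i)
    (hblock : ∀ i, f i ∣ b i - 1) (hn : n = ∏ i, b i) (hL : ∏ i, f i ∣ n - 1) :
    2 * s * n ≤ (2 * s * ∏ i, (b i - 1) / f i) ^ (2 ^ s) ∧
      ∏ i, (b i - 1) / f i < (n - 1) / ∏ i, f i := by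
  have hab : ∀ i, (b i - 1) / f i * f i + 1 = b i := fun i => by
    rw [Nat.div_mul_cancel (hblock i)]
    have := hb i
    omega
  have ha : ∀ i, 1 ≤ (b i - 1) / f i := fun i => by
    by_contra hcon
    have h0 : (b i - 1) / f i = 0 := Nat.lt_one_iff.1 (not_le.1 hcon)
    have h1 := hab i
    rw [h0, zero_mul] at h1
    have := hb i
    omega
  have hn1 : 0 < n := by
    rw [hn]
    exact Finset.prod_pos fun i _ => lt_trans Nat.zero_lt_one (hb i)
  have h : (n - 1) / (∏ i, f i) * ∏ i, f i + 1 = ∏ i, ((b i - 1) / f i * f i + 1) := by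
    rw [Nat.div_mul_cancel hL]
    simp only [hab]
    omega
  constructor
  · have h1 := induct hs ha hf h s univ (by simp)
    simp only [hab, ← hn] at h1
    simpa [M] using h1
  · have h2 := key hs ha hf h univ ⟨⟨0, by omega⟩, mem_univ _⟩
    simp only [compl_univ, prod_empty, one_mul, mul_one] at h2
    omega

theorem cube_one' {q : ℕ} (hq : 3 ≤ q) : 8 * q ^ 2 ≤ 9 * (q - 1) ^ 3 := by
  obtain ⟨x, rfl⟩ := Nat.exists_eq_add_of_le hq
  rw [show 3 + x - 1 = x + 2 by omega]
  nlinarith [Nat.zero_le (x ^ 3), Nat.zero_le (x ^ 2)]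

theorem cprod (T : Finset ℕ) (q : ℕ → ℕ) (hT : ∀ p ∈ T, 5 ≤ q p) :
    (∏ p ∈ T, q p) ^ 2 ≤ (∏ p ∈ T, (q p - 1)) ^ 3 := by
  rw [← prod_pow, ← prod_pow]
  exact Finset.prod_le_prod (fun _ _ => Nat.zero_le _) fun p hp => by
    have := cube_one (hT p hp)
    omega

theorem cprod_two (T : Finset ℕ) (q : ℕ → ℕ) (hT : ∀ p ∈ T, 5 ≤ q p) (hne : T.Nonempty) :
    64 * (∏ p ∈ T, q p) ^ 2 ≤ 25 * (∏ p ∈ T, (q p - 1)) ^ 3 := by
  obtain ⟨c, hc⟩ := hne
  rw [← mul_prod_erase T _ hc, ← mul_prod_erase T _ hc, mul_pow, mul_pow]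
  have h1 := cprod (T.erase c) q fun p hp => hT p (mem_of_mem_erase hp)
  have h2 := Nat.mul_le_mul (cube_one (hT c hc)) h1
  nlinarith

theorem comp_prod {b : ℕ} (hb : b ≠ 0) : ∏ p ∈ b.primeFactors, p ^ b.factorization p = b :=
  Nat.prod_factorization_pow_eq_self hb

theorem card_two {b : ℕ} (hb : 1 < b) (hp : ¬ IsPrimePow b) : 2 ≤ b.primeFactors.card := by
  by_contra hcon
  have h1 : 0 < b.primeFactors.card := card_pos.2 (Nat.nonempty_primeFactors.2 hb)
  exact hp (isPrimePow_iff_card_primeFactors_eq_one.2 (by omega))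

theorem odd_of' {b : ℕ} (hb : 1 < b) (hp : ¬ IsPrimePow b) (h : U b ∣ b - 1) : ¬ 2 ∣ b := by
  intro h2
  have h3 := card_two hb hp
  obtain ⟨p, hpm, hp2⟩ := exists_mem_ne (by omega : 1 < b.primeFactors.card) 2
  have h4 := Nat.prime_of_mem_primeFactors hpm
  have h5 : Odd (p ^ b.factorization p) := (h4.odd_of_ne_two hp2).pow
  have h6 : p ^ b.factorization p - 1 ∣ U b := Finset.dvd_prod_of_mem _ hpm
  have h7 : 2 ∣ p ^ b.factorization p - 1 := by
    obtain ⟨k, hk⟩ := h5
    exact ⟨k, by omega⟩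
  have h8 := (h7.trans h6).trans h
  omega

theorem big' {b : ℕ} (hb : 1 < b) (hp : ¬ IsPrimePow b) (h : U b ∣ b - 1) :
    2 * b ^ 2 ≤ U b ^ 3 := by
  have ho := odd_of' hb hp h
  have hc := card_two hb hp
  have hbp := comp_prod (b := b) (by omega)
  have hf : U b = ∏ p ∈ b.primeFactors, (p ^ b.factorization p - 1) := rfl
  have h3 : ∀ p ∈ b.primeFactors, 3 ≤ p := by
    intro p hpm
    have h4 := Nat.prime_of_mem_primeFactors hpm
    have h5 := Nat.dvd_of_mem_primeFactors hpm
    have h6 : p ≠ 2 := fun h7 => ho (h7 ▸ h5)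
    have := h4.two_le
    omega
  have hle : ∀ p ∈ b.primeFactors, p ≤ p ^ b.factorization p := fun p hpm =>
    Nat.le_self_pow (by
      have := (Nat.prime_of_mem_primeFactors hpm).factorization_pos_of_dvd
        (Nat.mem_primeFactors.1 hpm).2.2 (Nat.dvd_of_mem_primeFactors hpm)
      omega) p
  have hT : ∀ p ∈ b.primeFactors, p ≠ 3 → 5 ≤ p ^ b.factorization p := by
    intro p hpm h4
    have h5 : p ≠ 4 := by
      rintro rfl
      have := Nat.prime_of_mem_primeFactors hpm
      revert this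
      norm_num
    have := h3 p hpm
    have := hle p hpm
    omega
  by_cases hm : 3 ∈ b.primeFactors
  · rw [← mul_prod_erase _ _ hm] at hbp hf
    have h5 : ∀ p ∈ b.primeFactors.erase 3, 5 ≤ p ^ b.factorization p := fun p hp =>
      hT p (mem_of_mem_erase hp) (ne_of_mem_erase hp)
    have hne : (b.primeFactors.erase 3).Nonempty := by
      rw [← card_pos, card_erase_of_mem hm]
      omega
    have h6 := cprod_two _ (fun p => p ^ b.factorization p) h5 hne
    have h7 := cube_one' (show 3 ≤ 3 ^ b.factorization 3 from hle 3 hm)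
    have h8 := Nat.mul_le_mul h7 h6
    have e1 : b ^ 2 = (3 ^ b.factorization 3) ^ 2 *
        (∏ p ∈ b.primeFactors.erase 3, p ^ b.factorization p) ^ 2 := by
      rw [← mul_pow, hbp]
    have e2 : U b ^ 3 = (3 ^ b.factorization 3 - 1) ^ 3 *
        (∏ p ∈ b.primeFactors.erase 3, (p ^ b.factorization p - 1)) ^ 3 := by
      rw [hf, mul_pow]
    rw [e1, e2]
    nlinarith
  · have h5 : ∀ p ∈ b.primeFactors, 5 ≤ p ^ b.factorization p := fun p hp =>
      hT p hp fun h0 => hm (h0 ▸ hp)
    have hne : b.primeFactors.Nonempty := Nat.nonempty_primeFactors.2 hb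
    have h6 := cprod_two _ (fun p => p ^ b.factorization p) h5 hne
    rw [← hf, hbp] at h6
    omega

theorem quot' {b : ℕ} (hb : 1 < b) (h : U b ∣ b - 1) :
    (IsPrimePow b ∧ (b - 1) / U b = 1) ∨
      (2 ≤ (b - 1) / U b ∧ 2 * ((b - 1) / U b) ^ 2 < U b) := by
  obtain ⟨a, ha⟩ := h
  have hf : 0 < U b := U_pos b
  have h0 : (b - 1) / U b = a := by
    rw [ha]
    exact Nat.mul_div_cancel_left a hf
  rw [h0]
  by_cases hp : IsPrimePow b
  · left
    refine ⟨hp, ?_⟩
    have h1 : b.primeFactors.card = 1 := isPrimePow_iff_card_primeFactors_eq_one.1 hp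
    obtain ⟨p, hpe⟩ := card_eq_one.1 h1
    have h2 := comp_prod (b := b) (by omega)
    have h3 : U b = ∏ p ∈ b.primeFactors, (p ^ b.factorization p - 1) := rfl
    rw [hpe, prod_singleton] at h2 h3
    rw [h2] at h3
    rw [h3] at ha hf
    exact (Nat.eq_of_mul_eq_mul_left hf (by rw [mul_one]; exact ha)).symm
  · right
    have h1 := big' hb hp ⟨a, ha⟩
    constructor
    · have h5 := prod_two (fun p => p ^ b.factorization p - 1) b.primeFactors (card_two hb hp)
        fun p hpm => by
          have := one_lt_comp hpm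
          omega
      have h6 : ∏ p ∈ b.primeFactors, (p ^ b.factorization p - 1 + 1) = b := by
        rw [Finset.prod_congr rfl fun p hpm => by
          have := one_lt_comp hpm
          show p ^ b.factorization p - 1 + 1 = p ^ b.factorization p
          omega]
        exact comp_prod (by omega)
      rw [h6] at h5
      have h7 : U b + 2 ≤ b := h5
      by_contra hcon
      have h2 : a = 0 ∨ a = 1 := by omega
      rcases h2 with rfl | rfl
      · omega
      · rw [mul_one] at ha
        omega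
    · have h3 : U b * a < b := by omega
      have h4 : (U b * a) ^ 2 < b ^ 2 := Nat.pow_lt_pow_left h3 (by norm_num)
      have h5 : U b ^ 2 * (2 * a ^ 2) < U b ^ 2 * U b := by nlinarith
      exact lt_of_mul_lt_mul_left h5 (Nat.zero_le _)

/-- a product of two coprime numbers `> 1`, each a prime power or a solution, is no solution -/
theorem two' {b c : ℕ} (hb : 1 < b) (hc : 1 < c) (hcop : Nat.Coprime b c)
    (h1 : U b ∣ b - 1) (h2 : U c ∣ c - 1) : ¬ U (b * c) ∣ b * c - 1 := by
  intro h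
  have q1 := quot' hb h1
  have q2 := quot' hc h2
  have e1 := Nat.div_mul_cancel h1
  have e2 := Nat.div_mul_cancel h2
  have hf1 : 0 < U b := U_pos b
  have hf2 : 0 < U c := U_pos c
  rw [U_mul (by omega) (by omega) hcop] at h
  have e := Nat.div_mul_cancel h
  have hbc : 0 < b * c := Nat.mul_pos (by omega) (by omega)
  set a₁ := (b - 1) / U b
  set a₂ := (c - 1) / U c
  set k := (b * c - 1) / (U b * U c)
  have hb' : b = a₁ * U b + 1 := by omega
  have hc' : c = a₂ * U c + 1 := by omega
  have hm : k * (U b * U c) + 1 = (a₁ * U b + 1) * (a₂ * U c + 1) := by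
    rw [← hb', ← hc']
    omega
  have hne : b ≠ c := by
    rintro rfl
    exact hb.ne' (Nat.coprime_self b |>.1 hcop)
  have q1' : a₁ = 1 ∨ (2 ≤ a₁ ∧ 2 * a₁ ^ 2 < U b) := q1.imp (fun h => h.2) id
  have q2' : a₂ = 1 ∨ (2 ≤ a₂ ∧ 2 * a₂ ^ 2 < U c) := q2.imp (fun h => h.2) id
  rcases le_total (U b) (U c) with hle | hle
  · obtain ⟨x1, x2, x3⟩ := core hf1 hle hm q1' q2'
    rw [x1] at hb'
    rw [x2] at hc'
    omega
  · have hm' : k * (U c * U b) + 1 = (a₂ * U c + 1) * (a₁ * U b + 1) := by
      rw [mul_comm (U c) (U b), hm]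
      ring
    obtain ⟨x1, x2, x3⟩ := core hf2 hle hm' q2' q1'
    rw [x1] at hc'
    rw [x2] at hb'
    omega

theorem blocks' {ι : Type} [DecidableEq ι] {n : ℕ} (B : Finset ι) (v : ι → ℕ) (h2 : 2 ≤ B.card)
    (hB : ∀ b ∈ B, 1 < v b ∧ U (v b) ∣ v b - 1)
    (hcop : ∀ b ∈ B, ∀ c ∈ B, b ≠ c → Nat.Coprime (v b) (v c)) (hn : n = ∏ b ∈ B, v b)
    (hL : U n ∣ n - 1) :
    3 ≤ B.card ∧
    2 * B.card * n ≤ (2 * B.card * ∏ b ∈ B, (v b - 1) / U (v b)) ^ (2 ^ B.card) ∧
    ∏ b ∈ B, (v b - 1) / U (v b) < (n - 1) / U n := by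
  have hprod : ∀ g : ι → ℕ, ∏ i : Fin B.card, g (B.equivFin.symm i : ι) = ∏ b ∈ B, g b := by
    intro g
    rw [Equiv.prod_comp B.equivFin.symm (fun x : B => g x), Finset.prod_coe_sort]
  have hU : U n = ∏ b ∈ B, U (v b) := by
    rw [hn]
    exact U_prod v B (fun i hi => by have := (hB i hi).1; omega) hcop
  have h := main' (n := n) h2 (fun i => v (B.equivFin.symm i : ι))
    (fun i => U (v (B.equivFin.symm i : ι)))
    (fun i => (hB _ (B.equivFin.symm i).2).1)
    (fun i => U_pos _)
    (fun i => (hB _ (B.equivFin.symm i).2).2)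
    (by rw [hn]; exact (hprod v).symm) (by
      rw [hprod fun b => U (v b), ← hU]
      exact hL)
  rw [hprod fun b => (v b - 1) / U (v b), hprod fun b => U (v b), ← hU] at h
  refine ⟨?_, h⟩
  by_contra hcon
  have h3 : B.card = 2 := by omega
  obtain ⟨x, y, hxy, rfl⟩ := card_eq_two.1 h3
  rw [prod_pair hxy] at hn
  have hx := hB x (by simp)
  have hy := hB y (by simp)
  rw [hn] at hL
  exact two' hx.1 hy.1 (hcop x (by simp) y (by simp) hxy) hx.2 hy.2 hL

theorem U_pow {p e : ℕ} (hp : p.Prime) (he : e ≠ 0) : U (p ^ e) = p ^ e - 1 := by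
  unfold U
  rw [Nat.primeFactors_prime_pow he hp, prod_singleton, Nat.factorization_pow_self hp]

theorem multiples' {n d : ℕ} (h1 : 1 < d) (hdn : d < n) (hd : d ∣ n) (hcop : Nat.Coprime d (n / d))
    (hLd : U d ∣ d - 1) (hLn : U n ∣ n - 1) :
    2 ≤ (n / d).primeFactors.card ∧ ¬ U (n / d) ∣ n / d - 1 ∧
    2 * ((n / d).primeFactors.card + 1) * n ≤
      (2 * ((n / d).primeFactors.card + 1) * ((d - 1) / U d)) ^
        (2 ^ ((n / d).primeFactors.card + 1)) := by
  obtain ⟨m, rfl⟩ := hd
  have hm : 1 < m := by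
    by_contra hcon
    have h2 : m = 0 ∨ m = 1 := by omega
    rcases h2 with rfl | rfl <;> omega
  rw [Nat.mul_div_cancel_left m (by omega)] at hcop ⊢
  have hmp := comp_prod (b := m) (by omega)
  have h0 : (0 : ℕ) ∉ m.primeFactors := fun h2 =>
    Nat.not_prime_zero (Nat.prime_of_mem_primeFactors h2)
  have hv : ∀ p ∈ m.primeFactors, (if p = 0 then d else p ^ m.factorization p) =
      p ^ m.factorization p := fun p hp => if_neg (show ¬ p = 0 from fun h2 => h0 (by
        rw [← h2]
        exact hp))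
  have he : ∀ p ∈ m.primeFactors, m.factorization p ≠ 0 := fun p hpm => by
    have := (Nat.prime_of_mem_primeFactors hpm).factorization_pos_of_dvd
      (Nat.mem_primeFactors.1 hpm).2.2 (Nat.dvd_of_mem_primeFactors hpm)
    omega
  have hcard : (insert 0 m.primeFactors).card = m.primeFactors.card + 1 :=
    card_insert_of_notMem h0
  have hne : m.primeFactors.Nonempty := Nat.nonempty_primeFactors.2 hm
  have hq : ∏ p ∈ m.primeFactors, ((if p = 0 then d else p ^ m.factorization p) - 1) /
      U (if p = 0 then d else p ^ m.factorization p) = 1 := by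
    apply Finset.prod_eq_one
    intro p hp
    rw [hv p hp, U_pow (Nat.prime_of_mem_primeFactors hp) (he p hp)]
    exact Nat.div_self (by have := one_lt_comp hp; omega)
  have hdp : ∀ p ∈ m.primeFactors, Nat.Coprime d (p ^ m.factorization p) := fun p hp =>
    hcop.coprime_dvd_right (Nat.ordProj_dvd m p)
  have h := blocks' (n := d * m) (insert 0 m.primeFactors)
    (fun p => if p = 0 then d else p ^ m.factorization p)
    (by rw [hcard]; have := card_pos.2 hne; omega)
    (by
      intro b hb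
      rcases mem_insert.1 hb with rfl | hb
      · exact ⟨h1, hLd⟩
      · show 1 < (if b = 0 then d else b ^ m.factorization b) ∧
          U (if b = 0 then d else b ^ m.factorization b) ∣
            (if b = 0 then d else b ^ m.factorization b) - 1
        rw [hv b hb, U_pow (Nat.prime_of_mem_primeFactors hb) (he b hb)]
        exact ⟨one_lt_comp hb, dvd_refl _⟩)
    (by
      intro b hb c hc hbc
      show Nat.Coprime (if b = 0 then d else b ^ m.factorization b)
        (if c = 0 then d else c ^ m.factorization c)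
      rcases mem_insert.1 hb with rfl | hb'
      · rcases mem_insert.1 hc with rfl | hc'
        · exact absurd rfl hbc
        · rw [hv c hc']
          exact hdp c hc'
      · rcases mem_insert.1 hc with rfl | hc'
        · rw [hv b hb']
          exact (hdp b hb').symm
        · rw [hv b hb', hv c hc']
          exact Nat.Coprime.pow _ _ ((Nat.coprime_primes (Nat.prime_of_mem_primeFactors hb')
            (Nat.prime_of_mem_primeFactors hc')).2 hbc))
    (by
      rw [prod_insert h0, Finset.prod_congr rfl hv, hmp]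
      rfl) hLn
  rw [hcard, prod_insert h0, hq, mul_one] at h
  exact ⟨by omega, fun h2 => two' h1 hm hcop hLd h2 hLn, h.2.1⟩

end Pool.Agent.Helper20_LB.Unitary
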